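import Pool.Agent.Helper60.PW.Defs2

/-!
Module E5 of the full answer to MP_124889_co: selection of the two vertices `b` and `r`.
-/

namespace PoolPW

open Classical in
/-- the vertices reachable from `x` after deleting `b` -/
private noncomputable def selK {V : Type*} [Fintype V] (M : SimpleGraph V) (b x : V) :
    Finset V :=
  Finset.univ.filter (fun v => v ≠ b ∧ (delV M b).Reachable x v)

private theorem sel_mem {V : Type*} [Fintype V] (M : SimpleGraph V) (b x v : V) :
    v ∈ selK M b x ↔ v ≠ b ∧ (delV M b).Reachable x v := by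
  simp [selK]

/-- a vertex set closed under adjacency is closed under walks -/
private theorem sel_closed {V : Type*} (M : SimpleGraph V) (P : V → Prop)
    (hP : ∀ u w, P u → M.Adj u w → P w) {u v : V} (p : M.Walk u v) (hu : P u) : P v := by
  induction p with
  | nil => exact hu
  | cons h _ ih => exact ih (hP _ _ hu h)

private theorem sel_key {V : Type*} [Fintype V] (M : SimpleGraph V) (hM : M.Connected)
    (b x : V) (hmin : ∀ b' x', x' ≠ b' → (selK M b x).card ≤ (selK M b' x').card)
    (r : V) (hr : r ∈ selK M b x) (y : V) (hy : y ≠ r) : (delV M r).Reachable y b := by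
  classical
  by_contra hcon
  rw [sel_mem] at hr
  obtain ⟨hrb, hxr⟩ := hr
  -- some vertex of the piece of `y` is adjacent to `r`
  have h1 : ∃ u, u ≠ r ∧ (delV M r).Reachable y u ∧ M.Adj u r := by
    by_contra hno
    push Not at hno
    obtain ⟨p⟩ := hM.preconnected y r
    have := sel_closed M (fun v => v ≠ r ∧ (delV M r).Reachable y v) (by
      rintro u w ⟨hu, hyu⟩ huw
      have hwr : w ≠ r := by
        rintro rfl
        exact hno u hu hyu huw
      refine ⟨hwr, hyu.trans ?_⟩
      have : (delV M r).Adj u w := ⟨huw, hu, hwr⟩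
      exact this.reachable) p ⟨hy, SimpleGraph.Reachable.refl _⟩
    exact this.1 rfl
  -- the piece of `y` is connected without `b`
  have h2 : ∀ v, (delV M r).Reachable y v → (delV M b).Reachable y v := by
    rintro v ⟨p⟩
    have := sel_closed (delV M r)
      (fun v => (delV M r).Reachable y v ∧ (delV M b).Reachable y v) (by
        rintro u w ⟨hu, hu'⟩ huw
        have hw : (delV M r).Reachable y w := hu.trans huw.reachable
        refine ⟨hw, hu'.trans ?_⟩
        have hub : u ≠ b := by
          rintro rfl
          exact hcon hu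
        have hwb : w ≠ b := by
          rintro rfl
          exact hcon hw
        have : (delV M b).Adj u w := ⟨huw.1, hub, hwb⟩
        exact this.reachable) p ⟨SimpleGraph.Reachable.refl _, SimpleGraph.Reachable.refl _⟩
    exact this.2
  obtain ⟨u, hur, hyu, hadj⟩ := h1
  have hub : u ≠ b := by
    rintro rfl
    exact hcon hyu
  have hur' : (delV M b).Adj u r := ⟨hadj, hub, hrb⟩
  have hxy : (delV M b).Reachable x y := (hxr.trans hur'.symm.reachable).trans (h2 u hyu).symm
  have hsub : selK M r y ⊆ (selK M b x).erase r := by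
    intro v hv
    rw [sel_mem] at hv
    rw [Finset.mem_erase, sel_mem]
    refine ⟨hv.1, ?_, hxy.trans (h2 v hv.2)⟩
    rintro rfl
    exact hcon hv.2
  have hc := Finset.card_le_card hsub
  have hrK : r ∈ selK M b x := (sel_mem M b x r).2 ⟨hrb, hxr⟩
  rw [Finset.card_erase_of_mem hrK] at hc
  have hpos : 0 < (selK M b x).card := Finset.card_pos.2 ⟨r, hrK⟩
  have := hmin r y hy
  omega

/-- Module E5 (selection of `b` and `r`). -/
theorem sel {V : Type*} [Fintype V] (M : SimpleGraph V) (hM : M.Connected)
    (h2 : 2 ≤ Fintype.card V) (g : V → ℝ) :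
    ∃ b r : V, b ≠ r ∧ (∀ u v, u ≠ r → v ≠ r → (delV M r).Reachable u v) ∧
      ∀ t, M.Adj r t → t ≠ b → g t ≤ g r := by
  classical
  have hne : (Finset.univ.filter (fun q : V × V => q.2 ≠ q.1)).Nonempty := by
    obtain ⟨x, y, hxy⟩ := Fintype.one_lt_card_iff.1 (show 1 < Fintype.card V by omega)
    exact ⟨(y, x), by simp [hxy]⟩
  obtain ⟨⟨b, x⟩, hq, hqmin⟩ := Finset.exists_min_image _
    (fun q : V × V => (selK M q.1 q.2).card) hne
  have hxb : x ≠ b := by simpa using hq
  have hmin : ∀ b' x', x' ≠ b' → (selK M b x).card ≤ (selK M b' x').card := by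
    intro b' x' h
    exact hqmin (b', x') (by simpa using h)
  have hxK : x ∈ selK M b x := (sel_mem M b x x).2 ⟨hxb, SimpleGraph.Reachable.refl _⟩
  obtain ⟨r, hrK, hrmax⟩ := Finset.exists_max_image (selK M b x) g ⟨x, hxK⟩
  have hr := (sel_mem M b x r).1 hrK
  refine ⟨b, r, fun h => hr.1 h.symm, ?_, ?_⟩
  · intro u v hu hv
    exact (sel_key M hM b x hmin r hrK u hu).trans (sel_key M hM b x hmin r hrK v hv).symm
  · intro t hrt htb
    apply hrmax
    rw [sel_mem]
    refine ⟨htb, hr.2.trans ?_⟩
    have : (delV M b).Adj r t := ⟨hrt, hr.1, htb⟩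
    exact this.reachable

end PoolPW
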